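import Pool.Agent.H743.JL.StmY
import Pool.Agent.H743.JL.HJ
import Pool.Graph.R_pool_sql_team_seeded_63374d34.N218.GB.Asy

/-!
# JX-HJ2 (helper628): closeness in all the types, two kinds (adapted from HJ of helper696)
-/

set_option autoImplicit false
set_option linter.all false

open scoped Classical

namespace Pool.Agent.H628.JX.HJ2

open Finset Filter Topology
open Pool.Agent.Y703.CQ (c2)
open Pool.Agent.N916.GB (eta)
open Pool.Agent.H743.X17 (Sys Rt)
open Pool.Agent.H743.JL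
open Pool.Agent.N855.GF.Lc17 (Lc Loc KQ mem_KQ)
open Pool.Agent.N919.BS (NN NS HG)
open Pool.Agent.N916.AM (LAH dq)
open Pool.Agent.H696.JL.HJ

theorem ck01 (sp : Prop) : 0 ≤ ck sp ∧ ck sp ≤ 1 := by
  unfold ck
  split_ifs
  · exact Pool.Agent.N218.GB.Asy.eta_mem
  · exact ⟨Pool.Agent.N916.MO.c201.1, Pool.Agent.N916.MO.c201.2⟩

/-- the condition of the kind excludes the opposite integer -/
theorem ro_excl {sp sp' : Prop} (h : sp ↔ sp') {x : ℤ} (h1 : Ro sp x) (h2 : Ro sp' (-x)) : False := by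
  by_cases hs : sp
  · have a := h1.1 hs
    have b := h2.1 (h.1 hs)
    omega
  · exact rt_excl (h1.2 hs) (h2.2 (fun h' => hs (h.2 h')))

theorem t_HJ2 (h : S_LV2) (h1 : S_TT) : S_HJ2 := by
  obtain ⟨tA, tC, -, -, tN, tI⟩ := h1
  intro n sp t m Q h136 hm ht hinj hQ hR s k r hs hk hr
  obtain ⟨u, hu⟩ : ∃ u : ℤ, u = s * (k : ℤ) := ⟨_, rfl⟩
  have hus : Squarefree u := by
    rw [hu]
    exact sq_u hs hk
  have hum : u ∣ (m : ℤ) := by
    have h2 : (2 : ℤ) ∣ m := by
      have : (2 : ℕ) ∣ m := Dvd.dvd.trans (by norm_num) h136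
      exact_mod_cast this
    have h3 : u ∣ 2 := by
      rw [hu]
      rcases hs with rfl | rfl <;> rcases hk with rfl | rfl <;> norm_num
    exact h3.trans h2
  have hcast : ∀ M : ℕ, s * ((k * M : ℕ) : ℤ) = u * (M : ℤ) := by
    intro M
    rw [hu]
    push_cast
    ring
  have hMu : ∀ M : ℕ, M % 2 = 1 → tw u (M : ℤ) = u * M := by
    intro M hM
    apply tw_cop
    rw [hu]
    exact gcd_u hs hk hM
  have hsq : ∀ M : ℕ, Squarefree M → M % 2 = 1 → Squarefree (s * ((k * M : ℕ) : ℤ)) := by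
    intro M hM hM2
    rw [hcast, ← hMu M hM2]
    exact Pool.Agent.N855.GF.Tw.tw_sqf hus (Int.squarefree_natCast.2 hM)
  -- the two cases
  by_cases hcase : ∃ i j, (sp i ↔ sp j) ∧ t i = - t j
  · obtain ⟨i, j, hij, htij⟩ := hcase
    have hno : ∀ d : ℤ, Squarefree d → ¬ Q d := by
      intro d hd hQd
      have h2 := hR d hd hQd i
      have h3 := hR d hd hQd j
      rw [htij, tN _ _ (ht j).1 hd] at h2
      exact ro_excl hij.symm h3 h2
    have hzero : ∀ (P : ℤ → Prop), (∀ d, P d → Q d) → ∀ Y, NN P s k r Y = 0 := by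
      intro P hP Y
      exact NN_zero P (fun x hx hx4 hPx => hno _ (hsq x hx (by omega)) (hP _ hPx)) Y
    intro ε hε
    refine ⟨0, fun Y _ => ?_⟩
    rw [hzero _ (fun d hd => hd.1) Y, hzero Q (fun d hd => hd) Y]
    simp only [Nat.cast_zero, mul_zero, sub_zero, abs_zero]
    positivity
  · have hcase' : ∀ i j, (sp i ↔ sp j) → t i ≠ - t j := fun i j hij h2 => hcase ⟨i, j, hij, h2⟩
    obtain ⟨K, hK⟩ : ∃ K : Finset ℕ, K = KQ m Q s k r Ct := ⟨_, rfl⟩
    have hmem : ∀ {x : ℕ}, Squarefree x → (x % m ∈ K ↔ x % 4 = r ∧ Ct x ∧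
        Q (s * ((k * x : ℕ) : ℤ))) := by
      intro x hx
      rw [hK]
      exact mem_KQ h136 hm hQ hs hk hr (fun _ => Iff.rfl) hx
    have hodd : ∀ a ∈ K, a % 2 = 1 := by
      intro a ha
      rw [hK] at ha
      have := (mem_filter.1 ha).2.1
      omega
    have h8 : 8 ∣ m := Dvd.dvd.trans (by norm_num) h136
    have h17 : 17 ∣ m := Dvd.dvd.trans (by norm_num) h136
    have htw : ∀ (i : Fin n) (M : ℕ), Squarefree M → M % 2 = 1 →
        tw (t i) (s * ((k * M : ℕ) : ℤ)) = tw (tw (t i) u) M := by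
      intro i M hM hM2
      rw [hcast, ← hMu M hM2]
      exact tA _ _ _ (ht i).1 hus (Int.squarefree_natCast.2 hM)
    obtain ⟨G, hG⟩ : ∃ G : Finset ℕ → Prop, G = fun S : Finset ℕ => ∀ i, Kd (sp i) (tw (tw (t i) u)
      (∏ p ∈ S, (p : ℤ))) := ⟨_, rfl⟩
    have hGx : ∀ x : ℕ, Squarefree x → (G x.primeFactors ↔ ∀ i, Kd (sp i) (tw (tw (t i) u) x)) := by
      intro x hx
      have e : (∏ p ∈ x.primeFactors, (p : ℤ)) = x := by
        rw [← Nat.cast_prod, Nat.prod_primeFactors_of_squarefree hx]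
      rw [hG]
      show (∀ i, Kd (sp i) (tw (tw (t i) u) (∏ p ∈ x.primeFactors, (p : ℤ)))) ↔ _
      rw [e]
    have hL : LAH m K G (∏ i, ck (sp i)) := by
      rw [hG]
      refine h n sp (fun i => tw (t i) u) m K hm h8 h17 ?_ ?_ ?_
      · intro i
        exact ⟨Pool.Agent.N855.GF.Tw.tw_sqf (ht i).1 hus, tw_dvd (ht i).1 hus (ht i).2 hum⟩
      · intro i j hij
        by_cases hsp : sp i ↔ sp j
        · left
          constructor
          · intro h2
            exact hij (hinj i j (tI _ _ _ (ht i).1 (ht j).1 hus h2) hsp)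
          · intro h2
            have h3 : tw (t i) u = tw (- t j) u := by
              rw [tN _ _ (ht j).1 hus]
              exact h2
            exact hcase' i j hsp (tI _ _ _ (ht i).1
              ((Pool.Agent.N919.BS.sq_neg (t j)).2 (ht j).1) hus h3)
        · exact Or.inr hsp
      · intro x hx hxo hxK i
        have h2 := (hmem hx).1 hxK
        have hx2 : x % 2 = 1 := Nat.odd_iff.1 hxo
        have h3 := hR _ (hsq x hx hx2) h2.2.2 i
        rw [htw i x hx hx2] at h3
        exact h3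
    have hc0 : (0:ℝ) ≤ ∏ i, ck (sp i) := Finset.prod_nonneg fun i _ => (ck01 (sp i)).1
    have hc1 : ∏ i, ck (sp i) ≤ (1:ℝ) := Finset.prod_le_one (fun i _ => (ck01 (sp i)).1)
      fun i _ => (ck01 (sp i)).2
    intro ε hε
    obtain ⟨X₀, hX₀⟩ := dq h8 hm hc0 hc1 hL hodd ε hε
    refine ⟨X₀, fun Y hY => ?_⟩
    have h2 := hX₀ Y hY
    have e1 : NN (fun d => Q d ∧ ∀ i, Kd (sp i) (tw (t i) d)) s k r Y = ((Icc 1 Y).filter fun x =>
        Squarefree x ∧ x % m ∈ K ∧ G x.primeFactors).card := by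
      apply count1
      intro x a
      rw [hGx x a]
      constructor
      · rintro ⟨b, c, d⟩
        refine ⟨(hmem a).2 ⟨b, trivial, c⟩, fun i => ?_⟩
        have h3 := d i
        rw [htw i x a (by omega)] at h3
        exact h3
      · rintro ⟨b, d⟩
        obtain ⟨b1, -, b3⟩ := (hmem a).1 b
        refine ⟨b1, b3, fun i => ?_⟩
        rw [htw i x a (by omega)]
        exact d i
    have e2 : NN Q s k r Y = ((Icc 1 Y).filter fun x => Squarefree x ∧ x % m ∈ K).card := by
      apply count2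
      intro x a
      constructor
      · rintro ⟨b, c⟩
        exact (hmem a).2 ⟨b, trivial, c⟩
      · intro b
        obtain ⟨b1, -, b3⟩ := (hmem a).1 b
        exact ⟨b1, b3⟩
    rw [e1, e2]
    exact h2

end Pool.Agent.H628.JX.HJ2
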