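import Pool.Agent.H743.JL.StmY
import Pool.Agent.H743.JL.NI

/-!
# JX-NI2 (helper628): the fixed part is not degenerate, arithmetic form
-/

set_option autoImplicit false
set_option linter.all false

open scoped Classical

namespace Pool.Agent.H628.JX.NI2

open Finset Module
open Pool.Agent.N916.MO
open Pool.Agent.N916.GB (pt ps sx Po)
open Pool.Agent.Y703.CQ (c2 nr)
open Pool.Agent.N973.ND (uu)
open Pool.Agent.N916.AM (Nd Rich LAV LAH Bs)
open Pool.Agent.H743.X17 (Sys Rt RS LL lS al nu pd lam)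
open Pool.Agent.H743.JL
open Pool.Agent.H743.X17.QSYSB (aj f4 mem_RS lS_rec al_odd al_two nu_odd LL_off lS_nu)
open Pool.Agent.H734.JL.NI (m_sqf inj_piU mem_piU indep)

theorem t_NI2 (h1 : S_NI) (h2 : S_NA2) (h3 : S_KS2) (h4 : S_TW) : S_NI2 := by
  intro sp M S₀ t ι _ _ p k0 t₀ m hM h8 h17 hS ht htM hp hinj ht0 hm hR hN
  by_cases hsp : sp
  · have hB : BK sp m t₀ p k0 = Bhp k0 (LA m (piU m t₀ p)) := by
      unfold BK Bk
      rw [if_pos hsp]
    rw [hB]
    have hsq := m_sqf h4 hS ht htM hp hinj ht0 hm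
    obtain ⟨-, k2, k3, k4⟩ := h3 m (UF m t₀ ⊕ ι) (piU m t₀ p) hsq
      (inj_piU h4 hS ht htM hp hinj ht0) (mem_piU h4 hS ht htM hp hinj ht0 hm)
    refine h2 (UF m t₀) ι k0 (wA m (piU m t₀ p)) (aA m (piU m t₀ p)) (LA m (piU m t₀ p))
      k2 (k4 (hR.1 hsp)) k3 ?_ ?_ ?_
    · intro k
      show wt m (p k) = 1
      unfold wt
      rw [if_neg fun h => (hp k).1.2 h.1]
    · have hw : ∀ v : UF m t₀, wA m (piU m t₀ p) (Sum.inl v) = 0 → v.1 = 2 ∧ m % 4 = 3 := by
        intro v hv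
        have h4 : wt m v.1 = 0 := hv
        unfold wt at h4
        by_contra hcon
        rw [if_neg hcon] at h4
        exact one_ne_zero h4
      intro v hv
      obtain ⟨hv2, hm4⟩ := hw v hv
      refine ⟨?_, fun v' hv' => ?_⟩
      · show al m v.1 = 1
        rw [hv2, al_two, if_pos hm4]
      · exact Subtype.ext (hv2.trans (hw v' hv').1.symm)
    · intro b s h
      have h6 := indep h4 hM h8 h17 hS ht htM hp hinj ht0 hm hN b s 0 (fun _ => rfl) (by
        intro k
        rw [zero_mul, add_zero]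
        exact h k)
      exact ⟨h6.1, h6.2.1⟩
  · have hB : BK sp m t₀ p k0 = BA m t₀ p k0 := by
      unfold BK Bk BA
      rw [if_neg hsp]
    rw [hB]
    exact h1 M S₀ t ι p k0 t₀ m hM h8 h17 hS ht htM hp hinj ht0 hm (hR.2 hsp) hN

end Pool.Agent.H628.JX.NI2
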