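import Pool.Agent.H743.JL.StmY

/-!
# JX-SE2 (helper628): the types of the primes
-/

set_option autoImplicit false
set_option linter.all false

open scoped Classical

namespace Pool.Agent.H628.JX.SE2

open Finset Module
open Pool.Agent.N916.MO
open Pool.Agent.Y703.CQ (c2 nr)
open Pool.Agent.N973.ND (uu)
open Pool.Agent.H743.JL

theorem mem_Gm {n : ℕ} {t : Fin n → ℤ} {M : ℕ} {κ : Ty n} :
    κ ∈ Gm t M ↔ ∃ p : ℕ, p.Prime ∧ p.Coprime M ∧ ty t p = κ := by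
  unfold Gm
  rw [Finset.mem_filter]
  exact ⟨fun h => h.2, fun h => ⟨Finset.mem_univ _, h⟩⟩

theorem t_SE2 (h : S_SE) : S_SE2 := by
  intro n sp t M hM h8 h17 ht hd
  obtain ⟨⟨-, h0, h1⟩, -⟩ := h 0 (fun i => i.elim0) M hM h8 h17 (fun i => i.elim0)
    (fun i => i.elim0)
  refine ⟨fun i j hij => ?_, ?_, ?_⟩
  · rcases hd i j hij with hd' | hd'
    · left
      obtain ⟨⟨h2, -, -⟩, -⟩ := h 2 ![t i, t j] M hM h8 h17 (fun k => by
          fin_cases k
          · exact ht i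
          · exact ht j) (fun a b hab => by
          fin_cases a <;> fin_cases b
          · exact absurd rfl hab
          · exact hd'
          · refine ⟨fun e => hd'.1 ?_, fun e => hd'.2 ?_⟩
            · have e' : t j = t i := e
              exact e'.symm
            · have e' : t j = - t i := e
              rw [e', neg_neg]
          · exact absurd rfl hab)
      obtain ⟨κ, hκ, hκ0, hκ1⟩ := h2 0 1 (by decide)
      obtain ⟨p, hp, hpM, rfl⟩ := mem_Gm.1 hκ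
      exact ⟨ty t p, mem_Gm.2 ⟨p, hp, hpM, rfl⟩, hκ0, hκ1⟩
    · exact Or.inr hd'
  · obtain ⟨κ, hκ, hκ0, hκ1⟩ := h0
    obtain ⟨p, hp, hpM, rfl⟩ := mem_Gm.1 hκ
    exact ⟨ty t p, mem_Gm.2 ⟨p, hp, hpM, rfl⟩, hκ0, hκ1⟩
  · obtain ⟨κ, hκ, hκ0, hκ1⟩ := h1
    obtain ⟨p, hp, hpM, rfl⟩ := mem_Gm.1 hκ
    exact ⟨ty t p, mem_Gm.2 ⟨p, hp, hpM, rfl⟩, hκ0, hκ1⟩

end Pool.Agent.H628.JX.SE2
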